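import Pool.Agent.H256.CF.Red
import Pool.Agent.H256.CF.Ex

/-!
# Ranges of the cardinality function with at most three elements

`cardFn x t` is the number of 0-1 sequences `ε` with `∑ ε n x n = t`, and `IsRange C` says that `C`
is the set of values of `cardFn x` for some absolutely convergent real series `x` (definitions of
the file `RangesWithContinuum`, which describes all ranges that contain the continuum).

Here all ranges with at most three elements that do not contain `ω` are determined. The new part
are the ranges without infinite cardinals: `{0, a, b}` with natural numbers `0 < a < b` is a range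
if and only if `a` is a power of two and `b = 2 a` or `b = 3 a`.

Idea: let the terms be positive and let every number have no, one or `m ≥ 4` representations. For a
finite set `G` of indices let `u` be the least number with two representations that differ on `G`
(compactness). Representations of `u` that differ on `G` are disjoint. If all representations of
`u` are disjoint, `2 u` has at least `m + 1` of them. Otherwise a counting argument shows that one
representation of `u` avoids `G` and another one does not. For `G = {0, ..., n}` and sorted terms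
this gives `x n ≤ ∑_{k > n} x k` for all large `n`. If the inequality is strict infinitely often,
some number has infinitely many representations (Kakeya); otherwise the sequence is finally
geometric with ratio `1 / 2` and some term has exactly two representations.
-/

set_option autoImplicit false

open Set
open scoped Cardinal

namespace Pool.Agent.Results.MP_92898d_an.ThreeElementRanges

open Pool.Agent.Results.MP_92898d_an.RangesWithContinuum (cardFn K IsRange zero_mem)
open Pool.Agent.H256.CF

/-- three-element ranges of natural numbers -/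
theorem three (a b : ℕ) (ha : 0 < a) (hab : a < b) :
    IsRange {0, (a : Cardinal.{0}), (b : Cardinal.{0})} ↔
      ∃ k, a = 2 ^ k ∧ (b = 2 * a ∨ b = 3 * a) := by
  constructor
  · rintro ⟨x, hx, hr⟩
    obtain ⟨k, h1, h2⟩ := nec hx ha hab hr
    exact ⟨k, h1, by rw [h1]; exact h2⟩
  · rintro ⟨k, rfl, rfl | rfl⟩
    · exact suf2 k
    · exact suf3 k

/-- Determination of the ranges with at most three elements that do not contain `ω`. -/
theorem result (C : Set Cardinal.{0}) (hK : C ⊆ K) (hω : (ℵ₀ : Cardinal.{0}) ∉ C)
    (h3 : C.encard ≤ 3) :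
    IsRange C ↔ C = {0, 𝔠} ∨ ∃ k : ℕ,
      C = {0, ((2 ^ k : ℕ) : Cardinal.{0})} ∨
      C = {0, ((2 ^ k : ℕ) : Cardinal.{0}), 𝔠} ∨
      C = {0, ((2 ^ k : ℕ) : Cardinal.{0}), ((2 * 2 ^ k : ℕ) : Cardinal.{0})} ∨
      C = {0, ((2 ^ k : ℕ) : Cardinal.{0}), ((3 * 2 ^ k : ℕ) : Cardinal.{0})} := by
  have hcard3 : ∀ a b : Cardinal.{0}, (0 : Cardinal.{0}) ∈ C → a ∈ C → b ∈ C → a ≠ 0 → b ≠ 0 →
      a ≠ b → C = {0, a, b} := by
    intro a b h0 ha hb ha0 hb0 hab
    have hsub : ({0, a, b} : Set Cardinal.{0}) ⊆ C := by
      rintro c (h | h | h)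
      · rw [h]; exact h0
      · rw [h]; exact ha
      · rw [show c = b from h]; exact hb
    have hen : ({0, a, b} : Set Cardinal.{0}).encard = 3 := by
      rw [Set.encard_eq_three]
      exact ⟨0, a, b, ha0.symm, hb0.symm, hab, rfl⟩
    exact ((Set.toFinite _).eq_of_subset_of_encard_le hsub (by rw [hen]; exact h3)).symm
  constructor
  · intro hC
    by_cases hc : 𝔠 ∈ C
    · obtain ⟨h0, h | ⟨k, hk, _⟩⟩ :=
        (Pool.Agent.Results.MP_92898d_an.RangesWithContinuum.result C hK hc).1 hC
      · exact Or.inl h
      · right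
        refine ⟨k, Or.inr (Or.inl ?_)⟩
        apply hcard3 _ _ h0 hk hc
        · have : (2 ^ k : ℕ) ≠ 0 := by positivity
          exact_mod_cast this
        · exact Cardinal.continuum_ne_zero
        · exact (Cardinal.natCast_lt_aleph0.trans Cardinal.aleph0_lt_continuum).ne
    · right
      obtain ⟨x, hx, hr⟩ := hC
      have h0 : (0 : Cardinal.{0}) ∈ C := by rw [← hr]; exact zero_mem hx
      have hnat : ∀ κ ∈ C, ∃ n : ℕ, κ = (n : Cardinal.{0}) := by
        intro κ hκ
        rcases hK hκ with ⟨n, rfl⟩ | h | h
        · exact ⟨n, rfl⟩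
        · exact absurd (h ▸ hκ) hω
        · have h' : κ = 𝔠 := h
          exact absurd (h' ▸ hκ) hc
      have hfin : ∀ t, cardFn x t < ℵ₀ := by
        intro t
        obtain ⟨n, hn⟩ := hnat (cardFn x t) (by rw [← hr]; exact ⟨t, rfl⟩)
        rw [hn]
        exact Cardinal.natCast_lt_aleph0
      obtain ⟨k, ⟨t0, ht0⟩, hk⟩ := values hx hfin
      have hkC : ((2 ^ k : ℕ) : Cardinal.{0}) ∈ C := by rw [← hr]; exact ⟨t0, ht0⟩
      have hpow : 0 < 2 ^ k := by positivity
      have hpow0 : ((2 ^ k : ℕ) : Cardinal.{0}) ≠ 0 := by exact_mod_cast hpow.ne'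
      refine ⟨k, ?_⟩
      by_cases h2 : C = {0, ((2 ^ k : ℕ) : Cardinal.{0})}
      · exact Or.inl h2
      right; right
      obtain ⟨κ, hκ, hκ0, hκk⟩ : ∃ κ ∈ C, κ ≠ 0 ∧ κ ≠ ((2 ^ k : ℕ) : Cardinal.{0}) := by
        by_contra hcon
        push Not at hcon
        apply h2
        apply Set.Subset.antisymm
        · intro κ hκ
          by_cases h4 : κ = 0
          · left; exact h4
          · right; exact hcon κ hκ h4
        · rintro κ (h | h)
          · rw [h]; exact h0
          · rw [show κ = ((2 ^ k : ℕ) : Cardinal.{0}) from h]; exact hkC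
      obtain ⟨b, rfl⟩ := hnat κ hκ
      have hCe := hcard3 _ _ h0 hkC hκ hpow0 hκ0 (Ne.symm hκk)
      have hb0 : b ≠ 0 := by
        intro h; apply hκ0; rw [h]; simp
      have hbk : b ≠ 2 ^ k := by
        intro h; apply hκk; rw [h]
      have hdvd : 2 ^ k ∣ b := by
        have h5 : (b : Cardinal.{0}) ∈ Set.range (cardFn x) := by rw [hr]; exact hκ
        obtain ⟨t, ht⟩ := h5
        obtain ⟨g, _, hg⟩ := hk t
        rw [ht] at hg
        exact ⟨g, by exact_mod_cast hg⟩
      have hlt : 2 ^ k < b := lt_of_le_of_ne (Nat.le_of_dvd (Nat.pos_of_ne_zero hb0) hdvd) hbk.symm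
      have hR : IsRange {0, ((2 ^ k : ℕ) : Cardinal.{0}), (b : Cardinal.{0})} := by
        rw [← hCe]; exact ⟨x, hx, hr⟩
      obtain ⟨_, _, h6⟩ := (three (2 ^ k) b hpow hlt).1 hR
      rcases h6 with h6 | h6
      · left; rw [hCe, h6]
      · right; rw [hCe, h6]
  · rintro (h | ⟨k, h | h | h | h⟩)
    · have hc : 𝔠 ∈ C := by rw [h]; simp
      exact (Pool.Agent.Results.MP_92898d_an.RangesWithContinuum.result C hK hc).2
        ⟨by rw [h]; simp, Or.inl h⟩
    · rw [h]; exact suf1 k
    · have hc : 𝔠 ∈ C := by rw [h]; simp
      refine (Pool.Agent.Results.MP_92898d_an.RangesWithContinuum.result C hK hc).2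
        ⟨by rw [h]; simp, Or.inr ⟨k, by rw [h]; simp, fun n hn => ?_⟩⟩
      rw [h] at hn
      rcases hn with hn | hn | hn
      · have : n = 0 := by exact_mod_cast hn
        rw [this]; exact dvd_zero _
      · have : n = 2 ^ k := by exact_mod_cast hn
        rw [this]
      · have hn' : (n : Cardinal.{0}) = 𝔠 := hn
        exact absurd hn' (Cardinal.natCast_lt_aleph0.trans Cardinal.aleph0_lt_continuum).ne
    · rw [h]; exact suf2 k
    · rw [h]; exact suf3 k

end Pool.Agent.Results.MP_92898d_an.ThreeElementRanges
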